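import Pool.Agent.Helper32.OIP.Goals

/-!
# OIP, goal L3: the Markov step
-/

namespace Pool.Agent.Helper5.OIP

open MeasureTheory Pool.Agent.Helper32.OIP Pool.Agent.Helper58.Orb

open Classical in
lemma markov {Ω : Type} [MeasurableSpace Ω] (μ : Measure Ω) [IsProbabilityMeasure μ]
    (f : ℕ → Ω → Ω) (hf : ∀ a, MeasurePreserving (f a) μ μ) (D : Set Ω) (hD : MeasurableSet D)
    (K : ℕ) (hK : 1 ≤ K) :
    μ.real {z | K ≤ 4 * ((Finset.range K).filter (fun a => f a z ∈ D)).card} ≤
      4 * μ.real D := by
  set F : Ω → ℝ := fun z => ∑ a ∈ Finset.range K, ((f a ⁻¹' D).indicator (fun _ => (1 : ℝ)) z)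
    with hF
  have hms : ∀ a, MeasurableSet (f a ⁻¹' D) := fun a => (hf a).measurable hD
  have hint : ∀ a, Integrable ((f a ⁻¹' D).indicator (fun _ => (1 : ℝ))) μ := fun a =>
    (integrable_const 1).indicator (hms a)
  have h1 : ∫ z, F z ∂μ = K * μ.real D := by
    rw [hF, integral_finset_sum _ (fun a _ => hint a)]
    rw [Finset.sum_congr rfl (fun a _ => ?_), Finset.sum_const, Finset.card_range, nsmul_eq_mul]
    rw [integral_indicator (hms a), setIntegral_const, smul_eq_mul, mul_one, Measure.real,
      Measure.real, (hf a).measure_preimage hD.nullMeasurableSet]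
  have hnn : 0 ≤ᵐ[μ] F := by
    refine Filter.Eventually.of_forall fun z => ?_
    exact Finset.sum_nonneg fun a _ => Set.indicator_nonneg (fun _ _ => zero_le_one) z
  have h2 := mul_meas_ge_le_integral_of_nonneg hnn (integrable_finset_sum _ fun a _ => hint a)
    ((K : ℝ) / 4)
  rw [h1] at h2
  have hset : {z | K ≤ 4 * ((Finset.range K).filter (fun a => f a z ∈ D)).card} =
      {z | (K : ℝ) / 4 ≤ F z} := by
    ext z
    have hFz : F z = (((Finset.range K).filter (fun a => f a z ∈ D)).card : ℝ) := by
      rw [hF]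
      simp only [Set.indicator_apply, Set.mem_preimage]
      rw [Finset.sum_boole]
    simp only [Set.mem_setOf_eq]
    rw [hFz, div_le_iff₀ (by norm_num : (0 : ℝ) < 4)]
    constructor
    · intro h
      have : (K : ℝ) ≤ ((4 * ((Finset.range K).filter (fun a => f a z ∈ D)).card : ℕ) : ℝ) := by
        exact_mod_cast h
      push_cast at this
      linarith
    · intro h
      have : (K : ℝ) ≤ ((4 * ((Finset.range K).filter (fun a => f a z ∈ D)).card : ℕ) : ℝ) := by
        push_cast
        linarith
      exact_mod_cast this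
  rw [hset]
  have hK' : (0 : ℝ) < K := by exact_mod_cast hK
  by_contra hcon
  push Not at hcon
  nlinarith

theorem l3 : GoalL3 := by
  intro hMA1 A E _ _ S D T ν _ s t R K G Gh η hK hG hGh hη hGhb
  classical
  haveI : IsProbabilityMeasure (pm A ν) := by unfold pm; infer_instance
  set f : ℕ → (A → E) → (A → E) := fun a z => sh (gw T s t (a * (2 * R + 1))) z with hf
  have hfm : ∀ a, MeasurePreserving (f a) (pm A ν) (pm A ν) := fun a => hMA1.2.2 A E ν _
  have hm := markov (pm A ν) f hfm (symmDiff G Gh) (hG.symmDiff hGh) K hK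
  have hsub : {z | K ≤ 2 * ((Finset.range K).filter (fun a => f a z ∈ G)).card} ⊆
      {z | K ≤ 4 * ((Finset.range K).filter (fun a => f a z ∈ Gh)).card} ∪
      {z | K ≤ 4 * ((Finset.range K).filter (fun a => f a z ∈ symmDiff G Gh)).card} := by
    intro z hz
    simp only [Set.mem_setOf_eq] at hz
    simp only [Set.mem_union, Set.mem_setOf_eq]
    have hcard : ((Finset.range K).filter (fun a => f a z ∈ G)).card ≤
        ((Finset.range K).filter (fun a => f a z ∈ Gh)).card +
        ((Finset.range K).filter (fun a => f a z ∈ symmDiff G Gh)).card := by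
      refine le_trans (Finset.card_le_card ?_) (Finset.card_union_le _ _)
      intro a ha
      simp only [Finset.mem_union, Finset.mem_filter] at ha ⊢
      by_cases h : f a z ∈ Gh
      · exact Or.inl ⟨ha.1, h⟩
      · exact Or.inr ⟨ha.1, Or.inl ⟨ha.2, h⟩⟩
    by_contra hcon
    push Not at hcon
    omega
  calc (pm A ν).real {z | K ≤ 2 * ((Finset.range K).filter (fun a => f a z ∈ G)).card}
      ≤ (pm A ν).real ({z | K ≤ 4 * ((Finset.range K).filter (fun a => f a z ∈ Gh)).card} ∪
      {z | K ≤ 4 * ((Finset.range K).filter (fun a => f a z ∈ symmDiff G Gh)).card}) :=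
        measureReal_mono hsub
    _ ≤ _ := measureReal_union_le _ _
    _ ≤ (1 / 2 : ℝ) ^ K + 4 * η := by
      refine add_le_add hGhb (hm.trans ?_)
      linarith

end Pool.Agent.Helper5.OIP
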